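import Pool.Agent.Y994.KW.Stm2
import Pool.Agent.Y454.KW.Clt

/-!
# Project KW, part two, job KW2-FDD: characteristic functions of the increments
-/

set_option autoImplicit false
set_option linter.unusedSectionVars false

namespace Pool.Agent.Y319.KW

open Y994.KW Filter Topology
open Pool.Agent.Y454.KW

section rst

variable {α : Type} [Nonempty α]

theorem rst_rst {M b m : ℕ} (h : m ≤ b) (c : Fin M → α) : rst m (rst b c) = rst m c := by
  funext i
  have hi : (i : ℕ) < b := lt_of_lt_of_le i.2 h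
  simp only [rst, dif_pos hi]

theorem rst_self {M : ℕ} (c : Fin M → α) : rst M c = c := by
  funext i
  simp only [rst, dif_pos i.2]

theorem rst_lft {b l : ℕ} (c : Fin (b + l) → α) : rst b c = lft b l c := by
  funext i
  have hi : (i : ℕ) < b + l := by omega
  simp only [rst, dif_pos hi, lft]
  rfl

end rst

section blocks

variable {α : Type} [Fintype α] [Nonempty α]

theorem Ec_rst {M b : ℕ} (h : b ≤ M) (f : (Fin b → α) → ℂ) :
    Ec M (fun c => f (rst b c)) = Ec b f := by
  obtain ⟨l, rfl⟩ := Nat.exists_eq_add_of_le h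
  have e := Ec_prod f (fun _ : Fin l → α => (1 : ℂ))
  rw [Ec_const, mul_one] at e
  rw [← e]
  congr 1
  funext c
  rw [rst_lft, mul_one]

variable (Y : ∀ M : ℕ, (Fin M → α) → ℝ)

/-- the exponential of a combination of increments -/
noncomputable def G {k : ℕ} (m : Fin (k + 1) → ℕ) (θ : Fin k → ℝ) (N : ℕ) (c : Fin N → α) : ℂ :=
  Complex.exp (((∑ j : Fin k, θ j * (Yr Y c (m j.succ) - Yr Y c (m j.castSucc)) : ℝ) : ℂ) *
    Complex.I)

theorem G_norm {k : ℕ} (m : Fin (k + 1) → ℕ) (θ : Fin k → ℝ) (N : ℕ) (c : Fin N → α) :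
    ‖G Y m θ N c‖ = 1 := Complex.norm_exp_ofReal_mul_I _

theorem G_rst {k : ℕ} (m : Fin (k + 1) → ℕ) (θ : Fin k → ℝ) {N b : ℕ} (h : ∀ j, m j ≤ b)
    (c : Fin N → α) : G Y m θ N c = G Y m θ b (rst b c) := by
  have h1 : ∀ j, Yr Y (rst b c) (m j) = Yr Y c (m j) := by
    intro j
    unfold Yr
    rw [rst_rst (h j)]
  unfold G
  simp only [h1]

variable {Y} {B D : ℝ} {m0 : ℕ}

theorem step (h : Qa Y B D m0) (a l : ℕ) (f : (Fin a → α) → ℂ)
    (hf : ∀ v, ‖f v‖ ≤ 1) (θ : ℝ) :
    ‖Ec (a + l) (fun w => f (lft a l w) *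
      Complex.exp (((θ * (Y (a + l) w - Y a (lft a l w)) : ℝ) : ℂ) * Complex.I)) -
      Ec a f * phi Y θ l‖ ≤ |θ| * B := by
  have e1 : Ec a f * phi Y θ l = Ec (a + l) (fun w => f (lft a l w) *
      Complex.exp (((θ * Y l (rgt a l w) : ℝ) : ℂ) * Complex.I)) := by
    rw [Ec_prod f (fun c => Complex.exp (((θ * Y l c : ℝ) : ℂ) * Complex.I))]
    rfl
  rw [e1, ← Ec_sub]
  refine (Ec_norm _).trans ?_
  have h1 : ∀ w : Fin (a + l) → α, ‖f (lft a l w) *
      Complex.exp (((θ * (Y (a + l) w - Y a (lft a l w)) : ℝ) : ℂ) * Complex.I) -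
      f (lft a l w) * Complex.exp (((θ * Y l (rgt a l w) : ℝ) : ℂ) * Complex.I)‖ ≤
      |θ| * |Y (a + l) w - Y a (lft a l w) - Y l (rgt a l w)| := by
    intro w
    rw [← mul_sub, norm_mul]
    refine (mul_le_mul (hf _) (exp_lip _ _) (norm_nonneg _) zero_le_one).trans ?_
    rw [one_mul, ← abs_mul]
    apply le_of_eq
    congr 1
    ring
  refine (Ea_mono h1).trans ?_
  rw [Ea_mul]
  exact mul_le_mul_of_nonneg_left (Ea_abs_of_four _ h.Bpos (h.err a l)) (abs_nonneg _)

theorem blk (h : Qa Y B D m0) : ∀ (k : ℕ) (m : Fin (k + 1) → ℕ) (θ : Fin k → ℝ) (M : ℕ),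
    Monotone m → m (Fin.last k) ≤ M →
    ‖Ec M (G Y m θ M) - ∏ j : Fin k, phi Y (θ j) (m j.succ - m j.castSucc)‖ ≤
      (∑ j, |θ j|) * B := by
  intro k
  induction k with
  | zero =>
    intro m θ M _ _
    have e : G Y m θ M = fun _ => 1 := by
      funext c
      simp [G]
    rw [e, Ec_const]
    simp
  | succ k ih =>
    intro m θ M hm hM
    obtain ⟨l, hl⟩ := Nat.exists_eq_add_of_le
      (hm (Fin.le_last (Fin.last k).castSucc))
    set a : ℕ := m (Fin.last k).castSucc with ha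
    set m' : Fin (k + 1) → ℕ := fun j => m j.castSucc with hm'
    set θ' : Fin k → ℝ := fun j => θ j.castSucc with hθ'
    have hmono : Monotone m' := fun i j hij => hm (Fin.castSucc_le_castSucc_iff.2 hij)
    have e1 : Ec M (G Y m θ M) = Ec (a + l) (G Y m θ (a + l)) := by
      rw [← hl, ← Ec_rst hM (G Y m θ (m (Fin.last (k + 1))))]
      congr 1
      funext c
      exact G_rst Y m θ (fun j => hm (Fin.le_last j)) c
    have e2 : G Y m θ (a + l) = fun w : Fin (a + l) → α => G Y m' θ' a (lft a l w) *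
        Complex.exp (((θ (Fin.last k) * (Y (a + l) w - Y a (lft a l w)) : ℝ) : ℂ) *
          Complex.I) := by
      funext w
      have f1 : Yr Y w (m (Fin.last k).succ) = Y (a + l) w := by
        rw [Fin.succ_last, hl]
        unfold Yr
        rw [rst_self]
      have f2 : Yr Y w (m (Fin.last k).castSucc) = Y a (lft a l w) := by
        rw [← ha, ← rst_lft]
        rfl
      rw [← rst_lft, ← G_rst Y m' θ' (fun j => hmono (Fin.le_last j)) w, rst_lft, ← f1, ← f2]
      unfold G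
      rw [← Complex.exp_add, ← add_mul, ← Complex.ofReal_add, Fin.sum_univ_castSucc]
      rfl
    have e3 := step h a l (G Y m' θ' a) (fun v => (G_norm Y m' θ' a v).le) (θ (Fin.last k))
    rw [e1, e2]
    have e4 := ih m' θ' a hmono le_rfl
    have e5 : ∏ j : Fin (k + 1), phi Y (θ j) (m j.succ - m j.castSucc) =
        (∏ j : Fin k, phi Y (θ' j) (m' j.succ - m' j.castSucc)) * phi Y (θ (Fin.last k)) l := by
      rw [Fin.prod_univ_castSucc]
      have e6 : m (Fin.last k).succ - m (Fin.last k).castSucc = l := by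
        rw [Fin.succ_last, hl, ← ha]
        omega
      rw [e6]
      rfl
    rw [e5, Fin.sum_univ_castSucc]
    have e7 : ∀ x y z w : ℂ, x - z * w = (x - y * w) + (y - z) * w := by
      intro x y z w
      ring
    rw [e7 _ (Ec a (G Y m' θ' a)) _ _]
    refine (norm_add_le _ _).trans ?_
    rw [norm_mul]
    have e8 := phi_le Y (θ (Fin.last k)) l
    calc _ ≤ |θ (Fin.last k)| * B + (∑ j, |θ' j|) * B * 1 := by
          refine add_le_add e3 (mul_le_mul e4 e8 (norm_nonneg _) ?_)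
          have := h.Bpos
          positivity
      _ = _ := by ring

end blocks

section factors

variable {α : Type} [Fintype α] [Nonempty α] {Y : ∀ M : ℕ, (Fin M → α) → ℝ} {B D : ℝ} {m0 : ℕ}

theorem Dpos (h : Qa Y B D m0) {δ : ℝ} (hδ : 0 < δ) (hBD : δ * B ^ 2 ≤ D * m0) : 0 < D := by
  by_contra hD
  push Not at hD
  have h1 : D * m0 ≤ 0 := mul_nonpos_of_nonpos_of_nonneg hD (by positivity)
  have h2 : 0 < δ * B ^ 2 := by
    have := h.Bpos
    positivity
  linarith

theorem B_le (h : Qa Y B D m0) {δ A : ℝ} (hδ : 0 < δ) (hA : 0 < A) (hBD : δ * B ^ 2 ≤ D * m0)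
    {M : ℕ} (hM : A * m0 ≤ M) : √(δ * A) * B ≤ √(D * M) := by
  have hD := Dpos h hδ hBD
  have hB := h.Bpos
  apply Real.le_sqrt_of_sq_le
  rw [mul_pow, Real.sq_sqrt (by positivity)]
  calc δ * A * B ^ 2 = (δ * B ^ 2) * A := by ring
    _ ≤ (D * m0) * A := by gcongr
    _ = D * (A * m0) := by ring
    _ ≤ D * M := by gcongr

theorem phi_lip (s t : ℝ) (l : ℕ) :
    ‖phi Y s l - phi Y t l‖ ≤ |s - t| * Ea l (fun c => |Y l c|) := by
  unfold phi
  rw [← Ec_sub]
  refine (Ec_norm _).trans ?_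
  rw [← Ea_mul]
  refine Ea_mono fun c => ?_
  refine (exp_lip _ _).trans ?_
  rw [← abs_mul]
  apply le_of_eq
  congr 1
  ring

theorem phi_zero (l : ℕ) : phi Y 0 l = 1 := by
  unfold phi
  simp only [zero_mul, Complex.ofReal_zero, Complex.exp_zero]
  exact Ec_const 1

end factors

theorem fac (hQ : S_QAM) (hC : S_CLT) (δ θ ε τ : ℝ) (hδ : 0 < δ) (hε : 0 < ε) (hτ : 0 ≤ τ) :
    ∃ A : ℝ, 0 < A ∧ ∀ (α : Type) [Fintype α] [Nonempty α] (Y : ∀ M : ℕ, (Fin M → α) → ℝ)
      (B D : ℝ) (m0 : ℕ), Qa Y B D m0 → δ * B ^ 2 ≤ D * m0 → ∀ M l : ℕ, A * m0 ≤ M →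
      |(l : ℝ) - τ * M| ≤ 1 →
      ‖phi Y (θ / √(D * M)) l - Complex.exp (((-(θ ^ 2 * τ / 2) : ℝ) : ℂ))‖ ≤ ε := by
  rcases hτ.eq_or_lt with rfl | hτ0
  · -- no variance
    refine ⟨θ ^ 2 / (δ * ε ^ 2) + 1, by positivity, ?_⟩
    intro α _ _ Y B D m0 h hBD M l hM hl
    set A : ℝ := θ ^ 2 / (δ * ε ^ 2) + 1 with hA
    have hA0 : 0 < A := by positivity
    have hD := Dpos h hδ hBD
    have hB := h.Bpos
    have hm0 : (1 : ℝ) ≤ m0 := by exact_mod_cast h.mpos
    have hM0 : (0 : ℝ) < M := lt_of_lt_of_le (by positivity) hM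
    have hS0 : 0 < √(D * M) := Real.sqrt_pos.2 (by positivity)
    have hl1 : l ≤ 1 := by
      rw [zero_mul, sub_zero, abs_of_nonneg (Nat.cast_nonneg l)] at hl
      exact_mod_cast hl
    have h1 := Ea_abs_of_four (Y l) hB (h.short l (by have := h.mpos; omega))
    have h2 := phi_lip (Y := Y) (θ / √(D * M)) 0 l
    rw [phi_zero, sub_zero] at h2
    have e0 : Complex.exp (((-(θ ^ 2 * 0 / 2) : ℝ) : ℂ)) = 1 := by
      rw [mul_zero, zero_div, neg_zero, Complex.ofReal_zero, Complex.exp_zero]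
    rw [e0]
    refine h2.trans ?_
    rw [abs_div, abs_of_pos hS0]
    have h3 := B_le h hδ hA0 hBD hM
    have h4 : |θ| ≤ ε * √(δ * A) := by
      have h5 : θ ^ 2 ≤ (ε * √(δ * A)) ^ 2 := by
        rw [mul_pow, Real.sq_sqrt (by positivity)]
        have h6 : ε ^ 2 * (δ * A) = θ ^ 2 + ε ^ 2 * δ := by
          rw [hA]
          field_simp
        rw [h6]
        have : 0 < ε ^ 2 * δ := by positivity
        linarith
      exact abs_le_of_sq_le_sq h5 (by positivity)
    calc |θ| / √(D * M) * Ea l (fun c => |Y l c|) ≤ |θ| / √(D * M) * B := by gcongr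
      _ ≤ (ε * √(δ * A)) / √(D * M) * B := by gcongr
      _ = ε * (√(δ * A) * B) / √(D * M) := by ring
      _ ≤ ε * √(D * M) / √(D * M) := by gcongr
      _ = ε := by field_simp
  · obtain ⟨K, hK, hq⟩ := hQ
    obtain ⟨A1, hA1, hC1⟩ := hC δ (θ * √τ) (ε / 2) hδ (half_pos hε)
    have hsτ : 0 < √τ := Real.sqrt_pos.2 hτ0
    have hsτ2 : √τ ^ 2 = τ := Real.sq_sqrt hτ0.le
    have hsA : 0 < √(δ * A1) := Real.sqrt_pos.2 (by positivity)
    set C : ℝ := |θ| / √τ * (1 + K / √(δ * A1)) with hCdef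
    have hC0 : 0 ≤ C := by positivity
    set A : ℝ := 2 * A1 / τ + 2 / τ + 2 * C / ε with hA
    have hA0 : 0 < A := by positivity
    refine ⟨A, hA0, ?_⟩
    intro α _ _ Y B D m0 h hBD M l hM hl
    have hD := Dpos h hδ hBD
    have hB := h.Bpos
    have hm0 : (1 : ℝ) ≤ m0 := by exact_mod_cast h.mpos
    have hMA : A ≤ M := by
      calc A = A * 1 := (mul_one A).symm
        _ ≤ A * m0 := by gcongr
        _ ≤ M := hM
    have hM0 : (0 : ℝ) < M := lt_of_lt_of_le hA0 hMA
    have g1 : 2 ≤ τ * M := by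
      have : 2 / τ ≤ M := by
        have g2 : 0 ≤ 2 * A1 / τ := by positivity
        have g3 : 0 ≤ 2 * C / ε := by positivity
        linarith
      rw [div_le_iff₀ hτ0] at this
      linarith
    have hl' := abs_le.1 hl
    have g2 : τ * M / 2 ≤ l := by linarith [hl'.1]
    have g3 : A1 * m0 ≤ l := by
      refine le_trans ?_ g2
      have g4 : 2 * A1 / τ * m0 ≤ M := by
        refine le_trans ?_ hM
        have g5 : 2 * A1 / τ ≤ A := by
          have g6 : 0 ≤ 2 / τ := by positivity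
          have g7 : 0 ≤ 2 * C / ε := by positivity
          linarith
        gcongr
      have g5 : 2 * A1 / τ * m0 = 2 * (A1 * m0) / τ := by ring
      rw [g5, div_le_iff₀ hτ0] at g4
      linarith
    have hl0 : (0 : ℝ) < l := lt_of_lt_of_le (by positivity) g3
    have k1 := hC1 α Y B D m0 h hBD l g3
    set S : ℝ := √(D * M) with hS
    set w : ℝ := √(D * l) with hw
    have hS0 : 0 < S := Real.sqrt_pos.2 (by positivity)
    have hw0 : 0 < w := Real.sqrt_pos.2 (by positivity)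
    have hS2 : S ^ 2 = D * M := Real.sq_sqrt (by positivity)
    have hw2 : w ^ 2 = D * l := Real.sq_sqrt (by positivity)
    have k2 : Ec l (fun c => Complex.exp (((θ * √τ * (Y l c / w) : ℝ) : ℂ) * Complex.I)) =
        phi Y (θ * √τ / w) l := by
      unfold phi
      congr 1
      funext c
      congr 3
      ring
    rw [k2] at k1
    have k3 : ((-((θ * √τ) ^ 2 / 2) : ℝ) : ℂ) = ((-(θ ^ 2 * τ / 2) : ℝ) : ℂ) := by
      rw [mul_pow, hsτ2]
    rw [k3] at k1
    have k4 : ‖phi Y (θ / S) l - phi Y (θ * √τ / w) l‖ ≤ ε / 2 := by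
      refine (phi_lip _ _ _).trans ?_
      have h1 : Ea l (fun c => |Y l c|) ≤ w + K * B := by
        refine Ea_abs_of_two _ (by positivity) ?_
        have h2 := abs_le.1 ((hq α Y B D m0 h).2.1 l)
        have h3 : √(Ea l (fun c => Y l c ^ 2)) ≤ w + K * B := by linarith [h2.2]
        have h4 : 0 ≤ Ea l (fun c => Y l c ^ 2) := Ea_nonneg fun c => sq_nonneg _
        calc Ea l (fun c => Y l c ^ 2) = √(Ea l (fun c => Y l c ^ 2)) ^ 2 := (Real.sq_sqrt h4).symm
          _ ≤ (w + K * B) ^ 2 := by gcongr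
      have h2 : θ / S - θ * √τ / w = θ / w * (w / S - √τ) := by
        field_simp
      have h3 : |w / S - √τ| ≤ 1 / (M * √τ) := by
        have h4 : (w / S) ^ 2 - √τ ^ 2 = (l - τ * M) / M := by
          rw [div_pow, hw2, hS2, hsτ2]
          field_simp
        have h5 : |w / S - √τ| * (w / S + √τ) ≤ 1 / M := by
          have h6 : |w / S - √τ| * (w / S + √τ) = |(w / S) ^ 2 - √τ ^ 2| := by
            have h7 : 0 ≤ w / S + √τ := by positivity
            have h8 : |w / S - √τ| * (w / S + √τ) = |w / S - √τ| * |w / S + √τ| := by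
              rw [abs_of_nonneg h7]
            rw [h8, ← abs_mul]
            congr 1
            ring
          rw [h6, h4, abs_div, abs_of_pos hM0]
          gcongr
        have h6 : |w / S - √τ| * √τ ≤ 1 / M := by
          refine le_trans ?_ h5
          have h7 : √τ ≤ w / S + √τ := by
            have : 0 ≤ w / S := by positivity
            linarith
          gcongr
        rw [← le_div_iff₀ hsτ] at h6
        refine h6.trans (le_of_eq ?_)
        rw [div_div]
      have h4 : B ≤ w / √(δ * A1) := by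
        rw [le_div_iff₀ hsA, mul_comm]
        exact B_le h hδ hA1 hBD g3
      rw [h2, abs_mul, abs_div, abs_of_pos hw0]
      calc |θ| / w * |w / S - √τ| * Ea l (fun c => |Y l c|) ≤
            |θ| / w * (1 / (M * √τ)) * (w + K * (w / √(δ * A1))) := by
            have h5 : Ea l (fun c => |Y l c|) ≤ w + K * (w / √(δ * A1)) := by
              refine h1.trans ?_
              gcongr
            have h6 : 0 ≤ Ea l (fun c => |Y l c|) := Ea_nonneg fun c => abs_nonneg _
            gcongr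
        _ = C / M := by
            rw [hCdef]
            field_simp
        _ ≤ ε / 2 := by
            rw [div_le_iff₀ hM0]
            have h7 : 2 * C / ε ≤ M := by
              have g6 : 0 ≤ 2 / τ := by positivity
              have g7 : 0 ≤ 2 * A1 / τ := by positivity
              linarith
            rw [div_le_iff₀ hε] at h7
            linarith
    calc ‖phi Y (θ / S) l - Complex.exp (((-(θ ^ 2 * τ / 2) : ℝ) : ℂ))‖ ≤
          ‖phi Y (θ / S) l - phi Y (θ * √τ / w) l‖ +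
          ‖phi Y (θ * √τ / w) l - Complex.exp (((-(θ ^ 2 * τ / 2) : ℝ) : ℂ))‖ :=
          norm_sub_le_norm_sub_add_norm_sub _ _ _
      _ ≤ ε / 2 + ε / 2 := add_le_add k4 k1
      _ = ε := by ring

theorem prod_lip {ι : Type*} [DecidableEq ι] (s : Finset ι) (a b : ι → ℂ) (ha : ∀ i, ‖a i‖ ≤ 1)
    (hb : ∀ i, ‖b i‖ ≤ 1) : ‖∏ i ∈ s, a i - ∏ i ∈ s, b i‖ ≤ ∑ i ∈ s, ‖a i - b i‖ := by
  induction s using Finset.induction_on with
  | empty => simp
  | insert i s hi ih =>
    rw [Finset.prod_insert hi, Finset.prod_insert hi, Finset.sum_insert hi]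
    have e : a i * ∏ j ∈ s, a j - b i * ∏ j ∈ s, b j =
        (a i - b i) * ∏ j ∈ s, a j + b i * (∏ j ∈ s, a j - ∏ j ∈ s, b j) := by ring
    rw [e]
    refine (norm_add_le _ _).trans ?_
    rw [norm_mul, norm_mul]
    have h1 : ‖∏ j ∈ s, a j‖ ≤ 1 := by
      rw [norm_prod]
      exact Finset.prod_le_one (fun _ _ => norm_nonneg _) fun j _ => ha j
    calc ‖a i - b i‖ * ‖∏ j ∈ s, a j‖ + ‖b i‖ * ‖∏ j ∈ s, a j - ∏ j ∈ s, b j‖ ≤
          ‖a i - b i‖ * 1 + 1 * ∑ j ∈ s, ‖a j - b j‖ := by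
          have := hb i
          gcongr
      _ = _ := by ring

theorem t_FDD : S_QAM → S_CLT → S_FDD := by
  intro hQ hC δ ε k t θ hδ hε ht ht0 ht1
  set ε' : ℝ := ε / (2 * (k + 1)) with hε'
  have hε'0 : 0 < ε' := by positivity
  have hτ : ∀ j : Fin k, 0 ≤ t j.succ - t j.castSucc := fun j =>
    sub_nonneg.2 (ht (Fin.castSucc_lt_succ).le)
  choose A hA hfac using fun j : Fin k => fac hQ hC δ (θ j) ε' (t j.succ - t j.castSucc) hδ hε'0
    (hτ j)
  set Θ : ℝ := ∑ j, |θ j| with hΘ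
  have hΘ0 : 0 ≤ Θ := Finset.sum_nonneg fun _ _ => abs_nonneg _
  set A0 : ℝ := 4 * Θ ^ 2 / (δ * ε ^ 2) + 1 with hA0
  have hA00 : 0 < A0 := by positivity
  have hAs : 0 ≤ ∑ j, A j := Finset.sum_nonneg fun j _ => (hA j).le
  refine ⟨∑ j, A j + A0, by positivity, ?_⟩
  intro α _ _ Y B D m0 h hBD M hM
  have hD := Dpos h hδ hBD
  have hB := h.Bpos
  have hm0 : (1 : ℝ) ≤ m0 := by exact_mod_cast h.mpos
  have hM1 : A0 * m0 ≤ M := by
    refine le_trans ?_ hM
    gcongr
    linarith
  have hM2 : ∀ j, A j * m0 ≤ M := by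
    intro j
    refine le_trans ?_ hM
    gcongr
    have := Finset.single_le_sum (f := A) (fun i _ => (hA i).le) (Finset.mem_univ j)
    linarith
  have hM0 : (0 : ℝ) < M := lt_of_lt_of_le (by positivity) hM1
  set S : ℝ := √(D * M) with hS
  have hS0 : 0 < S := Real.sqrt_pos.2 (by positivity)
  set m : Fin (k + 1) → ℕ := fun j => ⌊t j * M⌋₊ with hm
  have htn : ∀ j, 0 ≤ t j := fun j => ht0.trans (ht (Fin.zero_le j))
  have hmono : Monotone m := by
    intro i j hij
    refine Nat.floor_mono ?_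
    have := ht hij
    gcongr
  have hmM : m (Fin.last k) ≤ M := by
    have h1 : t (Fin.last k) * M ≤ M := by
      calc t (Fin.last k) * M ≤ 1 * M := by gcongr
        _ = M := one_mul _
    calc m (Fin.last k) ≤ ⌊(M : ℝ)⌋₊ := Nat.floor_mono h1
      _ = M := Nat.floor_natCast M
  have e1 : (fun c : Fin M → α => Complex.exp (((∑ j : Fin k, θ j * ((Yr Y c ⌊t j.succ * M⌋₊
      - Yr Y c ⌊t j.castSucc * M⌋₊) / S) : ℝ) : ℂ) * Complex.I)) =
      G Y m (fun j => θ j / S) M := by
    funext c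
    unfold G
    congr 3
    refine Finset.sum_congr rfl fun j _ => ?_
    rw [hm]
    ring
  rw [e1]
  have k1 := blk h k m (fun j => θ j / S) M hmono hmM
  have e2 : Complex.exp (((-∑ j : Fin k, θ j ^ 2 * (t j.succ - t j.castSucc) / 2 : ℝ) : ℂ)) =
      ∏ j : Fin k, Complex.exp (((-(θ j ^ 2 * (t j.succ - t j.castSucc) / 2) : ℝ) : ℂ)) := by
    rw [← Complex.exp_sum]
    congr 1
    push_cast
    rw [Finset.sum_neg_distrib]
  rw [e2]
  have k2 : ‖∏ j : Fin k, phi Y (θ j / S) (m j.succ - m j.castSucc) -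
      ∏ j : Fin k, Complex.exp (((-(θ j ^ 2 * (t j.succ - t j.castSucc) / 2) : ℝ) : ℂ))‖ ≤
      ε / 2 := by
    refine (prod_lip _ _ _ (fun j => phi_le Y _ _) (fun j => ?_)).trans ?_
    · rw [← Complex.ofReal_exp, Complex.norm_real, Real.norm_of_nonneg (Real.exp_pos _).le]
      apply Real.exp_le_one_iff.2
      have h1 := hτ j
      have : 0 ≤ θ j ^ 2 * (t j.succ - t j.castSucc) / 2 := by positivity
      linarith
    · have h1 : ∀ j : Fin k, ‖phi Y (θ j / S) (m j.succ - m j.castSucc) -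
          Complex.exp (((-(θ j ^ 2 * (t j.succ - t j.castSucc) / 2) : ℝ) : ℂ))‖ ≤ ε' := by
        intro j
        refine hfac j α Y B D m0 h hBD M _ (hM2 j) ?_
        have h2 : m j.castSucc ≤ m j.succ := hmono (Fin.castSucc_lt_succ).le
        rw [Nat.cast_sub h2]
        have a1 := Nat.floor_le (mul_nonneg (htn j.succ) hM0.le)
        have a2 := Nat.lt_floor_add_one (t j.succ * M)
        have a3 := Nat.floor_le (mul_nonneg (htn j.castSucc) hM0.le)
        have a4 := Nat.lt_floor_add_one (t j.castSucc * M)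
        rw [abs_le]
        constructor <;> simp only [hm] <;> linarith
      calc _ ≤ ∑ _j : Fin k, ε' := Finset.sum_le_sum fun j _ => h1 j
        _ = k * ε' := by rw [Finset.sum_const, Finset.card_univ, Fintype.card_fin, nsmul_eq_mul]
        _ ≤ (k + 1) * ε' := by gcongr; linarith
        _ = ε / 2 := by rw [hε']; field_simp
  have k3 : (∑ j, |θ j / S|) * B ≤ ε / 2 := by
    have h1 : ∑ j, |θ j / S| = Θ / S := by
      rw [hΘ, Finset.sum_div]
      refine Finset.sum_congr rfl fun j _ => ?_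
      rw [abs_div, abs_of_pos hS0]
    rw [h1]
    have h3 := B_le h hδ hA00 hBD hM1
    have h4 : Θ ≤ ε / 2 * √(δ * A0) := by
      have h5 : Θ ^ 2 ≤ (ε / 2 * √(δ * A0)) ^ 2 := by
        rw [mul_pow, Real.sq_sqrt (by positivity)]
        have h6 : (ε / 2) ^ 2 * (δ * A0) = Θ ^ 2 + (ε / 2) ^ 2 * δ := by
          rw [hA0]
          field_simp
          ring
        rw [h6]
        have : 0 < (ε / 2) ^ 2 * δ := by positivity
        linarith
      exact (abs_le_of_sq_le_sq h5 (by positivity)).trans' (le_abs_self _)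
    calc Θ / S * B ≤ (ε / 2 * √(δ * A0)) / S * B := by gcongr
      _ = ε / 2 * (√(δ * A0) * B) / S := by ring
      _ ≤ ε / 2 * S / S := by gcongr
      _ = ε / 2 := by field_simp
  calc _ ≤ _ := norm_sub_le_norm_sub_add_norm_sub _
        (∏ j : Fin k, phi Y (θ j / S) (m j.succ - m j.castSucc)) _
    _ ≤ ε / 2 + ε / 2 := add_le_add (k1.trans k3) k2
    _ = ε := by ring

end Pool.Agent.Y319.KW
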